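import Pool.Agent.LE.StmtsH

/-!
# Squad LCH, row LIM: no eigenvalue in `B`, complete eigenfunctions near `B`
-/

set_option autoImplicit false

open MeasureTheory ProbabilityTheory Function Filter

open scoped ENNReal BigOperators InnerProductSpace Topology

noncomputable section

namespace Pool.Agent.LE.CH.H15

open Pool.Agent.Anderson Pool.Agent.Loc Pool.Agent.Mob Pool.Agent.Helper54.Bal

/-- Row LIM. -/
theorem lim (hs : WtsStmt) (hc : WtcStmt) (ha : WtaStmt) : LimStmt := by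
  intro d V a r B u hB hr hBJ hcpl hno
  obtain ⟨S, hS⟩ : ∃ S : Set (L2 d), S = {φ : L2 d | ∃ E₀ : ℝ, E₀ ∉ B ∧ IsEigen V E₀ φ} := ⟨_, rfl⟩
  obtain ⟨M, hM⟩ : ∃ M : Submodule ℂ (L2 d), M = (Submodule.span ℂ S).topologicalClosure := ⟨_, rfl⟩
  have hMc : IsClosed (M : Set (L2 d)) := by
    rw [hM]; exact Submodule.isClosed_topologicalClosure _
  have hcs : CompleteSpace M := hMc.completeSpace_coe
  obtain ⟨m, hm, v, hv, huv⟩ := Submodule.exists_add_mem_mem_orthogonal (K := M) u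
  -- the part in `M`
  have hm1 : Tendsto (fun η : ℝ => wt V B η m) (𝓝[>] 0) (𝓝 0) := by
    refine hs d V B m hB ?_
    rw [← hS, ← Submodule.topologicalClosure_coe, ← hM]
    exact hm
  -- the part orthogonal to `M`
  have hv1 : Orth V (Set.Icc (a - r) (a + r)) v := by
    intro E φ _ hφ
    have h1 : φ ∈ M := by
      by_cases hE : E ∈ B
      · rw [hno E hE φ hφ]; exact M.zero_mem
      · rw [hM]
        refine Submodule.le_topologicalClosure _ (Submodule.subset_span ?_)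
        rw [hS]
        exact ⟨E, hE, hφ⟩
    exact (Submodule.mem_orthogonal M v).1 hv φ h1
  have hv2 : ∀ η : ℝ, 0 < η → ∀ E ∈ B, ‖G V (zz η E) v‖ ≤ 4 / r * ‖v‖ := by
    intro η hη E hE
    have h1 := hc d V a r η E v hη hcpl hv1
    have h2 : |E - a| ≤ r / 2 := by
      rw [abs_le]
      obtain ⟨h3, h4⟩ := hBJ hE
      constructor
      · linarith
      · linarith
    have h3 : r / 2 * ‖G V (zz η E) v‖ ≤ (r - |E - a|) * ‖G V (zz η E) v‖ :=
      mul_le_mul_of_nonneg_right (by linarith) (norm_nonneg _)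
    rw [div_mul_eq_mul_div, le_div_iff₀ hr]
    linarith
  have hv3 : ∀ η : ℝ, 0 < η → wt V B η v ≤
      ENNReal.ofReal (η * (1 / Real.pi * (4 / r * ‖v‖) ^ 2)) * ENNReal.ofReal r := by
    intro η hη
    unfold wt
    calc ∫⁻ E in B, ENNReal.ofReal (η / Real.pi * ‖G V (zz η E) v‖ ^ 2)
        ≤ ∫⁻ _ in B, ENNReal.ofReal (η * (1 / Real.pi * (4 / r * ‖v‖) ^ 2)) := by
          refine setLIntegral_mono' hB.measurableSet fun E hE => ENNReal.ofReal_le_ofReal ?_
          have h1 : ‖G V (zz η E) v‖ ^ 2 ≤ (4 / r * ‖v‖) ^ 2 :=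
            pow_le_pow_left₀ (norm_nonneg _) (hv2 η hη E hE) 2
          have h2 : 0 ≤ η / Real.pi := div_nonneg hη.le Real.pi_pos.le
          have h3 := mul_le_mul_of_nonneg_left h1 h2
          have h4 : η / Real.pi * (4 / r * ‖v‖) ^ 2 = η * (1 / Real.pi * (4 / r * ‖v‖) ^ 2) := by
            ring
          rw [← h4]; exact h3
      _ = ENNReal.ofReal (η * (1 / Real.pi * (4 / r * ‖v‖) ^ 2)) * volume B := by
          rw [setLIntegral_const]
      _ ≤ ENNReal.ofReal (η * (1 / Real.pi * (4 / r * ‖v‖) ^ 2)) * ENNReal.ofReal r := by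
          refine mul_le_mul_right (le_trans (measure_mono hBJ) ?_) _
          rw [Real.volume_Icc]
          exact ENNReal.ofReal_le_ofReal (by linarith)
  have hv4 : Tendsto (fun η : ℝ =>
      ENNReal.ofReal (η * (1 / Real.pi * (4 / r * ‖v‖) ^ 2)) * ENNReal.ofReal r)
      (𝓝[>] 0) (𝓝 0) := by
    have h1 : Tendsto (fun η : ℝ => η * (1 / Real.pi * (4 / r * ‖v‖) ^ 2)) (𝓝[>] 0) (𝓝 0) := by
      have h2 : Tendsto (fun η : ℝ => η * (1 / Real.pi * (4 / r * ‖v‖) ^ 2)) (𝓝 0)
          (𝓝 (0 * (1 / Real.pi * (4 / r * ‖v‖) ^ 2))) := tendsto_id.mul_const _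
      rw [zero_mul] at h2
      exact h2.mono_left nhdsWithin_le_nhds
    have h3 := ENNReal.tendsto_ofReal h1
    rw [ENNReal.ofReal_zero] at h3
    have h4 := ENNReal.Tendsto.mul_const (b := ENNReal.ofReal r) h3
      (Or.inr ENNReal.ofReal_ne_top)
    rwa [zero_mul] at h4
  have hfin : Tendsto (fun η : ℝ => 2 * wt V B η m + 2 *
      (ENNReal.ofReal (η * (1 / Real.pi * (4 / r * ‖v‖) ^ 2)) * ENNReal.ofReal r))
      (𝓝[>] 0) (𝓝 0) := by
    have h1 := ENNReal.Tendsto.const_mul (a := 2) hm1 (Or.inr ENNReal.ofNat_ne_top)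
    have h2 := ENNReal.Tendsto.const_mul (a := 2) hv4 (Or.inr ENNReal.ofNat_ne_top)
    have h3 := h1.add h2
    rw [mul_zero, add_zero] at h3
    exact h3
  refine tendsto_of_tendsto_of_tendsto_of_le_of_le' tendsto_const_nhds hfin
    (Eventually.of_forall fun η => zero_le) ?_
  filter_upwards [self_mem_nhdsWithin] with η hη
  have h1 := (ha d V B η hη).1 m v
  rw [← huv] at h1
  refine h1.trans ?_
  gcongr
  exact hv3 η hη

end Pool.Agent.LE.CH.H15
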